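import Mathlib
import Pool.Agent.Y347.CO.Stm3

/-! # Project CO: relabelled affine sets without progressions (after Affg of helper433) -/

set_option autoImplicit false

namespace Pool.Agent.Y891.CO.Affp

open Finset Pool.Agent.Y347.CO

section

variable {X : Type} [Fintype X] [DecidableEq X] {p : ℕ} [Fact p.Prime]

/-- the vectors supported in `P` -/
def supp (p : ℕ) [Fact p.Prime] (P : Finset X) : Submodule (ZMod p) (X → ZMod p) where
  carrier := {v | ∀ x, x ∉ P → v x = 0}
  add_mem' := by
    intro a b ha hb x hx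
    rw [Pi.add_apply, ha x hx, hb x hx, add_zero]
  zero_mem' := fun _ _ => rfl
  smul_mem' := by
    intro c a ha x hx
    rw [Pi.smul_apply, ha x hx, smul_zero]

theorem sum_single (v : X → ZMod p) : v = ∑ x, v x • (Pi.single x 1 : X → ZMod p) := by
  funext y
  rw [Finset.sum_apply]
  simp [Pi.single_apply]

theorem exists_pts (W : Submodule (ZMod p) (X → ZMod p)) :
    ∃ P : Finset X, P.card ≤ Module.finrank (ZMod p) ((X → ZMod p) ⧸ W) ∧
      (supp p P).map W.mkQ = ⊤ := by
  classical
  set t : Set ((X → ZMod p) ⧸ W) := Set.range (fun x : X => W.mkQ (Pi.single x 1)) with ht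
  obtain ⟨b, hbt, hspan, hli⟩ := exists_linearIndependent (ZMod p) t
  have hbf : b.Finite := Set.Finite.subset (Set.finite_range _) hbt
  have htop : Submodule.span (ZMod p) t = ⊤ := by
    rw [eq_top_iff]
    intro q _
    obtain ⟨v, rfl⟩ := W.mkQ_surjective q
    rw [sum_single v, map_sum]
    refine Submodule.sum_mem _ fun x _ => ?_
    rw [map_smul]
    exact Submodule.smul_mem _ _ (Submodule.subset_span ⟨x, rfl⟩)
  have hch : ∀ q : b, ∃ x : X, W.mkQ (Pi.single x 1) = q.1 := fun q => hbt q.2
  choose f hf using hch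
  have : Fintype b := hbf.fintype
  refine ⟨Finset.univ.image f, ?_, ?_⟩
  · refine Finset.card_image_le.trans ?_
    rw [Finset.card_univ]
    exact hli.fintype_card_le_finrank
  · rw [eq_top_iff, ← htop, ← hspan, Submodule.span_le]
    intro q hq
    refine ⟨Pi.single (f ⟨q, hq⟩) 1, ?_, hf ⟨q, hq⟩⟩
    intro x hx
    have : x ≠ f ⟨q, hq⟩ := by
      rintro rfl
      exact hx (Finset.mem_image_of_mem _ (Finset.mem_univ _))
    rw [Pi.single_eq_of_ne this]

end

theorem key (p k n : ℕ) [Fact p.Prime] (W : Submodule (ZMod p) (Fin n → ZMod p))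
    (g : ℕ → Fin n → ZMod p)
    (hN : ((k - 1) * (p - 1) + 1) * Module.finrank (ZMod p) ((Fin n → ZMod p) ⧸ W) < n) :
    ∃ t : Fin n → ZMod p, t ≠ 0 ∧
      (∀ j, 1 ≤ j → j < k → (fun i => if t i ≠ 0 then g j i else 0) ∈ W) ∧
      ∀ v : Fin n → ZMod p, ∃ w ∈ W, ∀ i, t i ≠ 0 → w i = v i := by
  classical
  have hp : 2 ≤ p := (Fact.out : p.Prime).two_le
  obtain ⟨P, hP, hPt⟩ := exists_pts W
  set m := Module.finrank (ZMod p) ((Fin n → ZMod p) ⧸ W) with hm
  set bs := Module.finBasis (ZMod p) ((Fin n → ZMod p) ⧸ W) with hbs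
  set c : Fin m → Fin n → ZMod p := fun s i => bs.repr (W.mkQ (Pi.single i 1)) s with hc
  set F : (Fin (k - 1) × Fin m) ⊕ {i // i ∈ P} → MvPolynomial (Fin n) (ZMod p) := fun s =>
    match s with
    | Sum.inl js => ∑ i : Fin n, MvPolynomial.C (c js.2 i * g (js.1 + 1) i) *
        MvPolynomial.X i ^ (p - 1)
    | Sum.inr i => MvPolynomial.X i.1 with hF
  have hdeg : ∑ s, (F s).totalDegree < Fintype.card (Fin n) := by
    rw [Fintype.sum_sum_type, Fintype.card_fin]
    have h1 : ∀ js : Fin (k - 1) × Fin m, (F (Sum.inl js)).totalDegree ≤ p - 1 := by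
      intro js
      refine MvPolynomial.totalDegree_finsetSum_le fun x _ => ?_
      refine (MvPolynomial.totalDegree_mul _ _).trans ?_
      rw [MvPolynomial.totalDegree_C, zero_add]
      refine (MvPolynomial.totalDegree_pow _ _).trans ?_
      rw [MvPolynomial.totalDegree_X, mul_one]
    have h2 : ∀ i : {i // i ∈ P}, (F (Sum.inr i)).totalDegree ≤ 1 := by
      intro i
      exact (MvPolynomial.totalDegree_X _).le
    calc ∑ j, (F (Sum.inl j)).totalDegree + ∑ i, (F (Sum.inr i)).totalDegree
        ≤ ∑ j : Fin (k - 1) × Fin m, (p - 1) + ∑ i : {i // i ∈ P}, 1 :=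
          Nat.add_le_add (Finset.sum_le_sum fun j _ => h1 j) (Finset.sum_le_sum fun i _ => h2 i)
      _ = (k - 1) * m * (p - 1) + P.card := by simp
      _ ≤ (k - 1) * m * (p - 1) + m := Nat.add_le_add_left hP _
      _ = ((k - 1) * (p - 1) + 1) * m := by ring
      _ < n := hN
  have hdvd := char_dvd_card_solutions_of_fintype_sum_lt p hdeg
  have hev : ∀ (t : Fin n → ZMod p) (js : Fin (k - 1) × Fin m),
      MvPolynomial.eval t (F (Sum.inl js)) =
      ∑ i : Fin n, c js.2 i * g (js.1 + 1) i * t i ^ (p - 1) := by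
    intro t js
    show MvPolynomial.eval t (∑ i : Fin n, MvPolynomial.C (c js.2 i * g (js.1 + 1) i) *
        MvPolynomial.X i ^ (p - 1)) = _
    rw [map_sum]
    refine Finset.sum_congr rfl fun x _ => ?_
    rw [map_mul, map_pow, MvPolynomial.eval_C, MvPolynomial.eval_X]
  have hev2 : ∀ (t : Fin n → ZMod p) (i : {i // i ∈ P}),
      MvPolynomial.eval t (F (Sum.inr i)) = t i.1 := fun t i => MvPolynomial.eval_X _
  have h0 : ∀ s, MvPolynomial.eval (0 : Fin n → ZMod p) (F s) = 0 := by
    rintro (j | i)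
    · rw [hev]
      refine Finset.sum_eq_zero fun x _ => ?_
      rw [Pi.zero_apply, zero_pow (by omega), mul_zero]
    · rw [hev2]; rfl
  obtain ⟨t, ht, ht0⟩ : ∃ t : Fin n → ZMod p, (∀ s, MvPolynomial.eval t (F s) = 0) ∧ t ≠ 0 := by
    by_contra hcon
    push Not at hcon
    have hcard : Fintype.card {x : Fin n → ZMod p // ∀ s, MvPolynomial.eval x (F s) = 0} = 1 := by
      rw [Fintype.card_eq_one_iff]
      exact ⟨⟨0, h0⟩, fun y => Subtype.ext (hcon y.1 y.2)⟩
    rw [hcard] at hdvd
    have := Nat.le_of_dvd one_pos hdvd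
    omega
  refine ⟨t, ht0, ?_, ?_⟩
  · intro j hj1 hjk
    rw [← Submodule.Quotient.mk_eq_zero, ← Submodule.mkQ_apply]
    apply bs.repr.injective
    rw [map_zero]
    ext s
    have h1 := ht (Sum.inl (⟨j - 1, by omega⟩, s))
    rw [hev] at h1
    simp only [Nat.sub_add_cancel hj1] at h1
    rw [sum_single (fun i => if t i ≠ 0 then g j i else 0), map_sum, map_sum,
      Finsupp.finsetSum_apply, Finsupp.zero_apply]
    refine Eq.trans ?_ h1
    refine Finset.sum_congr rfl fun x _ => ?_
    rw [map_smul, map_smul, Finsupp.smul_apply, smul_eq_mul]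
    by_cases hx : t x = 0
    · rw [hx, zero_pow (by omega)]
      simp
    · rw [if_pos hx, ZMod.pow_card_sub_one_eq_one hx, mul_one, mul_comm]
  · intro v
    have hmem : W.mkQ v ∈ (supp p P).map W.mkQ := by rw [hPt]; exact Submodule.mem_top
    obtain ⟨u, hu, huv⟩ := hmem
    refine ⟨v - u, ?_, ?_⟩
    · rw [← Submodule.Quotient.mk_eq_zero, ← Submodule.mkQ_apply, map_sub, huv, sub_self]
    · intro x hx
      have hxP : x ∉ P := by
        intro hxP
        have h2 := ht (Sum.inr ⟨x, hxP⟩)
        rw [hev2] at h2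
        exact hx h2
      rw [Pi.sub_apply, hu x hxP, sub_zero]

/-- **CO-AFFP**. -/
theorem done : S_AFFP := by
  classical
  intro p k n _ A σ hk1 hkp hprog hcl
  have hp : 2 ≤ p := (Fact.out : p.Prime).two_le
  rcases A.eq_empty_or_nonempty with rfl | ⟨a0, h0⟩
  · simp
  let sig : (Fin n → ZMod p) → (Fin n → ZMod p) := fun a i => σ i (a i)
  have hsig : Function.Injective sig := by
    intro a b h
    funext i
    exact (σ i).injective (congrFun h i)
  let W0 : AddSubgroup (Fin n → ZMod p) :=
    { carrier := {w | ∃ a ∈ A, w = sig a - sig a0}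
      add_mem' := by
        rintro _ _ ⟨a, ha, rfl⟩ ⟨b, hb, rfl⟩
        refine ⟨_, hcl a ha a0 h0 b hb, ?_⟩
        funext i
        simp only [sig, Pi.add_apply, Pi.sub_apply, Equiv.apply_symm_apply]
        ring
      zero_mem' := ⟨a0, h0, (sub_self _).symm⟩
      neg_mem' := by
        rintro _ ⟨a, ha, rfl⟩
        refine ⟨_, hcl a0 h0 a ha a0 h0, ?_⟩
        funext i
        simp only [sig, Pi.neg_apply, Pi.sub_apply, Equiv.apply_symm_apply]
        ring }
  set W : Submodule (ZMod p) (Fin n → ZMod p) := AddSubgroup.toZModSubmodule p W0 with hW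
  have memW : ∀ w, w ∈ W ↔ ∃ a ∈ A, w = sig a - sig a0 := fun w => Iff.rfl
  have hcard : A.card = p ^ Module.finrank (ZMod p) W := by
    have h1 : Nat.card W = p ^ Module.finrank (ZMod p) W := by
      rw [Module.natCard_eq_pow_finrank (K := ZMod p), Nat.card_zmod]
    rw [← h1]
    have h2 : A.card = Nat.card A := by
      rw [Nat.card_eq_fintype_card, Fintype.card_coe]
    rw [h2]
    refine Nat.card_congr (Equiv.ofBijective
      (fun a : A => (⟨sig a.1 - sig a0, a.1, a.2, rfl⟩ : W)) ⟨?_, ?_⟩)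
    · intro a b h
      have h3 := congrArg Subtype.val h
      simp only at h3
      exact Subtype.ext (hsig (sub_left_injective h3))
    · rintro ⟨w, a, ha, rfl⟩
      exact ⟨⟨a, ha⟩, rfl⟩
  have hdim : Module.finrank (ZMod p) ((Fin n → ZMod p) ⧸ W) +
      Module.finrank (ZMod p) W = n := by
    rw [Submodule.finrank_quotient_add_finrank, Module.finrank_fintype_fun_eq_card]
    simp
  by_cases hN : ((k - 1) * (p - 1) + 1) *
      Module.finrank (ZMod p) ((Fin n → ZMod p) ⧸ W) < n
  · exfalso
    obtain ⟨t, ht0, h1, h2⟩ := key p k n W (fun j i => σ i (j : ZMod p) - σ i 0) hN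
    obtain ⟨w, ⟨a, ha, hwa⟩, hw⟩ := h2 (fun i => σ i 0 - sig a0 i)
    have haz : ∀ i, t i ≠ 0 → a i = 0 := by
      intro i hi
      have h3 := hw i hi
      rw [hwa, Pi.sub_apply] at h3
      have h4 : σ i (a i) = σ i 0 := sub_left_injective h3
      exact (σ i).injective h4
    set y : Fin n → ZMod p := fun i => if t i ≠ 0 then 1 else 0 with hy
    have hy0 := hprog a y (by
      intro j hj
      rcases Nat.eq_zero_or_pos j with rfl | hj1
      · simpa using ha
      · have h3 : sig (a + j • y) - sig a = fun i => if t i ≠ 0 then σ i (j : ZMod p) - σ i 0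
            else 0 := by
          funext i
          simp only [sig, Pi.sub_apply, Pi.add_apply, Pi.smul_apply, hy]
          by_cases hi : t i ≠ 0
          · rw [if_pos hi, if_pos hi, haz i hi, nsmul_one, zero_add]
          · rw [if_neg hi, if_neg hi, nsmul_zero, add_zero, sub_self]
        have h4 := h1 j hj1 hj
        rw [← h3] at h4
        have h5 : sig (a + j • y) - sig a0 ∈ W := by
          have h6 := W.add_mem h4 ((memW _).2 ⟨a, ha, rfl⟩)
          rwa [sub_add_sub_cancel] at h6
        obtain ⟨b, hb, hbe⟩ := (memW _).1 h5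
        rw [hsig (sub_left_injective hbe)]
        exact hb)
    apply ht0
    funext i
    by_contra hi
    have h3 := congrFun hy0 i
    simp only [hy, Pi.zero_apply] at h3
    have hi' : t i ≠ 0 := hi
    rw [if_pos hi'] at h3
    exact one_ne_zero h3
  · push Not at hN
    rw [hcard, ← pow_mul, ← pow_add, ← pow_mul]
    apply Nat.pow_le_pow_right (by omega)
    set m := Module.finrank (ZMod p) ((Fin n → ZMod p) ⧸ W)
    set d := Module.finrank (ZMod p) W
    set E := (k - 1) * (p - 1) + 1
    calc d * E + n ≤ d * E + E * m := by omega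
      _ = (m + d) * E := by ring
      _ = n * E := by rw [hdim]

end Pool.Agent.Y891.CO.Affp
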